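import Pool.Agent.H560R2.Neg1

set_option autoImplicit false

/-! Monotone circuits for `k`-CNF-UNSAT: definitions and the statements of the pieces. -/

namespace Pool.Agent.J4H64.MC

open Finset Filter Pool.Agent.H560R2 Pool.Agent.H520R2

/-- Clauses of at most `k` literals on `n` variables. -/
abbrev Clause (n k : ℕ) : Type := {c : Finset (Fin n × Bool) // c.card ≤ k}

/-- A set of clauses, given by its indicator vector, is satisfiable. -/
def Sat {n k : ℕ} (x : Clause n k → Bool) : Prop :=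
  ∃ a : Fin n → Bool, ∀ c : Clause n k, x c = true → ∃ l ∈ c.1, a l.1 = l.2

/-- A monotone circuit on the inputs `I`: `m` gates, each an AND (`true`) or an OR (`false`) of
arbitrarily many inputs and earlier gates; `o` is the output gate. -/
structure Circ (I : Type) where
  m : ℕ
  kind : Fin m → Bool
  predIn : Fin m → Finset I
  predG : Fin m → Finset (Fin m)
  o : Fin m
  acyclic : ∀ j : Fin m, ∀ k ∈ predG j, k < j

namespace Circ

variable {I : Type} (C : Circ I)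

/-- `v` is the valuation of the gates on the input `x`. -/
def Val (x : I → Bool) (v : Fin C.m → Bool) : Prop :=
  ∀ j : Fin C.m,
    (C.kind j = true → (v j = true ↔
      ((∀ i ∈ C.predIn j, x i = true) ∧ ∀ k ∈ C.predG j, v k = true))) ∧
    (C.kind j = false → (v j = true ↔
      ((∃ i ∈ C.predIn j, x i = true) ∨ ∃ k ∈ C.predG j, v k = true)))

/-- the circuit accepts the input -/
def Acc (x : I → Bool) : Prop := ∃ v : Fin C.m → Bool, C.Val x v ∧ v C.o = true

end Circ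

/-! ### The generator -/

section Gen

variable {ρ : Type} {t K : ℕ}

/-- parity of the first `j` terms of the row `r` -/
def par (R : ρ → Fin t → Fin K) (w : Fin K → Bool) (r : ρ) : ℕ → Bool
  | 0 => false
  | j + 1 => if h : j < t then xor (par R w r j) (w (R r ⟨j, h⟩)) else par R w r j

/-- value of the row `r` -/
def bit (R : ρ → Fin t → Fin K) (w : Fin K → Bool) (r : ρ) : Bool := par R w r t

/-- the row as a vector over the field of two elements -/
def rvec (R : ρ → Fin t → Fin K) (r : ρ) : Fin K → ZMod 2 := ∑ j, Pi.single (R r j) 1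

/-- nonempty sets of at most `K / (8 t)` rows have a nonzero sum -/
def Indep (R : ρ → Fin t → Fin K) : Prop :=
  ∀ S : Finset ρ, S.Nonempty → 8 * (t * S.card) ≤ K → ∑ r ∈ S, rvec R r ≠ 0

end Gen

/-- piece FEW -/
def S_FEW : Prop :=
  ∀ (α β : Type) [Fintype α] [Fintype β] [DecidableEq α] [DecidableEq β],
    8 * Fintype.card α ≤ Fintype.card β →
    (univ.filter (fun f : α → β => 2 * (univ.image f).card ≤ Fintype.card α)).card *
      2 ^ Fintype.card α ≤ Fintype.card β ^ Fintype.card α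

/-- piece ROWS (from FEW) -/
def S_ROWS : Prop :=
  ∀ (ρ : Type) [Fintype ρ] (t K : ℕ), 1 ≤ K → 4 * Fintype.card ρ ≤ 2 ^ t →
    ∃ R : ρ → Fin t → Fin K, Indep R

/-- piece IND -/
def S_IND : Prop :=
  ∀ (ρ : Type) [DecidableEq ρ] (t K : ℕ) (R : ρ → Fin t → Fin K) (S : Finset ρ),
    (∀ T ⊆ S, T.Nonempty → ∑ r ∈ T, rvec R r ≠ 0) → ∀ b : ρ → Bool,
    {w : Fin K → Bool | ∀ r ∈ S, bit R w r = b r}.ncard * 2 ^ S.card ≤ 2 ^ K

section Points

variable {k μ m t K : ℕ}

/-- the points: positions with values, a value being `k` parts of `μ` bits -/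
abbrev Pnt (k μ m : ℕ) : Type := Fin m × (Fin k → Fin μ → Bool)

/-- the value at the position `i` -/
def value (R : Fin m × Fin k × Fin μ → Fin t → Fin K) (w : Fin K → Bool) (i : Fin m) :
    Fin k → Fin μ → Bool := fun h b => bit R w (i, h, b)

/-- the graph of the seed `w` -/
def graph (R : Fin m × Fin k × Fin μ → Fin t → Fin K) (w : Fin K → Bool) :
    Finset (Pnt k μ m) := univ.image (fun i => (i, value R w i))

/-- some graph is inside `x` -/
def Has (R : Fin m × Fin k × Fin μ → Fin t → Fin K) (x : Set (Pnt k μ m)) : Prop :=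
  ∃ w, ∀ i, (i, value R w i) ∈ x

end Points

/-- piece LOW: monotone programs over narrow base functions (uses `spread_lower`) -/
def S_LOW : Prop :=
  ∀ (k μ m t K e lam : ℕ) (R : Fin m × Fin k × Fin μ → Fin t → Fin K), Indep R →
    1 ≤ e → 1 ≤ k → 1 ≤ μ → 1 ≤ t → K + 1 ≤ m → 16 * (t * (k * μ * e)) ≤ K →
    m * 2 ^ (k * μ) + 1 ≤ 2 ^ lam → 512 * (lam + 1) * lam * e ≤ 2 ^ (k * μ) →
    ∀ (Bs : Set (Set (Pnt k μ m) → Bool)),
      (∀ b ∈ Bs, ∃ T : Finset (Pnt k μ m), T.card ≤ e ∧ LeafOn T (fun x => b x = true)) →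
      ∀ (s : ℕ) (g : Set (Pnt k μ m) → Bool), 1 ≤ s → MComp Bs s g →
        (∀ x, g x = true ↔ Has R x) → 4 ^ e ≤ 2 * s

/-- piece BIN: from a circuit of unbounded fan-in to a monotone program for the dual function -/
def S_BIN : Prop :=
  ∀ (I X : Type) [Fintype I] (C : Circ I) (Bs : Set (X → Bool)) (z : X → I → Bool)
    (g : X → Bool),
    (fun _ => true) ∈ Bs → (fun _ => false) ∈ Bs → (∀ i, (fun x => ! z x i) ∈ Bs) →
    (∀ x, g x = true ↔ ¬ C.Acc (z x)) →
    MComp Bs (C.m * (C.m + Fintype.card I + 1)) g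

/-- piece ENC: the `k`-CNF of a set of points -/
def S_ENC : Prop :=
  ∀ (k μ m t K n : ℕ) (R : Fin m × Fin k × Fin μ → Fin t → Fin K), 3 ≤ k →
    K + m * (k * μ) * (t + 1) + m * (k * 2 ^ μ) * (μ + 1) ≤ n →
    ∃ z : Set (Pnt k μ m) → Clause n k → Bool,
      (∀ c, ∃ T : Finset (Pnt k μ m), T.card ≤ 1 ∧ LeafOn T (fun x => (! z x c) = true)) ∧
      ∀ x, Sat (z x) ↔ Has R x

/-- the parametric lower bound -/
def S_PAR : Prop :=
  ∀ (k μ n e : ℕ), 3 ≤ k → 1 ≤ μ → 1 ≤ e → 8192 * (k * μ) ^ 2 * e + 1 ≤ 2 ^ (k * μ) →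
    2 ^ (k * μ) + 2 ^ (k * μ) * (k * μ) * (2 * (k * μ) + 3) +
      2 ^ (k * μ) * (k * 2 ^ μ) * (μ + 1) ≤ n →
    ∀ C : Circ (Clause n k), (∀ x, C.Acc x ↔ ¬ Sat x) →
      4 ^ e ≤ 2 * (C.m * (C.m + Fintype.card (Clause n k) + 1))

/-- piece ASM -/
def S_ASM : Prop := S_ROWS → S_LOW → S_BIN → S_ENC → S_PAR

/-- the final statement -/
def S_FIN : Prop :=
  ∀ k : ℕ, 3 ≤ k → ∃ c : ℝ, 0 < c ∧ ∀ᶠ n : ℕ in atTop, ∀ C : Circ (Clause n k),
    (∀ x, C.Acc x ↔ ¬ Sat x) →
      (2 : ℝ) ^ (c * (n : ℝ) ^ ((k : ℝ) / (k + 1)) / Real.log n ^ 3) ≤ C.m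

/-- piece PFIN -/
def S_PFIN : Prop := S_PAR → S_FIN

end Pool.Agent.J4H64.MC
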