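import Pool.Agent.J4H64.MC.Def

set_option autoImplicit false

/-! Assembly of the parametric lower bound. -/

namespace Pool.Agent.J4H64.MC

open Finset Filter Pool.Agent.H560R2 Pool.Agent.H520R2

theorem t_ASM : S_ASM := by
  classical
  intro hR hL hB hE k μ n e hk hμ he hcond hn C hC
  have hkμ : 1 ≤ k * μ := Nat.mul_pos (by omega) hμ
  set q : ℕ := k * μ with hq
  have h2q : q < 2 ^ q := Nat.lt_two_pow_self
  have hsq : q * q * e ≥ q * e := by
    have : q * e * 1 ≤ q * e * q := Nat.mul_le_mul_left _ hkμ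
    calc q * q * e = q * e * q := by ring
      _ ≥ q * e * 1 := this
      _ = q * e := by ring
  have hqe : q * e ≥ 1 := Nat.mul_pos hkμ he
  have hqe2 : q * e ≥ e := by
    calc e = 1 * e := (one_mul e).symm
      _ ≤ q * e := Nat.mul_le_mul_right _ hkμ
  have hcond' : 8192 * (q * q * e) + 1 ≤ 2 ^ q := by
    have : 8192 * q ^ 2 * e = 8192 * (q * q * e) := by ring
    omega
  set m : ℕ := 2 ^ q with hm
  obtain ⟨R, hRi⟩ := hR (Fin m × Fin k × Fin μ) (2 * q + 2) (m - 1) (by omega) (by
    simp only [Fintype.card_prod, Fintype.card_fin]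
    rw [← hq]
    have h1 : 2 ^ (2 * q + 2) = 4 * (m * m) := by
      rw [hm]; ring
    rw [h1]
    exact Nat.mul_le_mul_left _ (Nat.mul_le_mul_left _ h2q.le))
  obtain ⟨z, hz1, hz2⟩ := hE k μ m (2 * q + 2) (m - 1) n R hk (by
    rw [← hq]
    refine le_trans ?_ hn
    refine Nat.add_le_add (Nat.add_le_add (Nat.sub_le _ _) ?_) le_rfl
    exact le_of_eq (by ring))
  set Bs : Set (Set (Pnt k μ m) → Bool) :=
    {b | ∃ T : Finset (Pnt k μ m), T.card ≤ e ∧ LeafOn T (fun x => b x = true)} with hBs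
  have hprog := hB (Clause n k) (Set (Pnt k μ m)) C Bs z (fun x => decide (Has R x))
    ⟨∅, by simp, fun x y _ h => h⟩ ⟨∅, by simp, fun x y _ h => h⟩
    (fun c => by
      obtain ⟨T, hT, hTl⟩ := hz1 c
      exact ⟨T, hT.trans he, hTl⟩)
    (fun x => by
      rw [hC, hz2, not_not, decide_eq_true_iff])
  have hm1 : 1 ≤ C.m := by
    have := C.o.isLt
    omega
  have hfin := hL k μ m (2 * q + 2) (m - 1) e (2 * q + 1) R hRi he (by omega) hμ (by omega)
    (by omega) (by
      rw [← hq]
      have h1 : 16 * ((2 * q + 2) * (q * e)) = 32 * (q * q * e) + 32 * (q * e) := by ring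
      omega) (by
      rw [← hq, ← hm]
      have h1 : 2 ^ (2 * q + 1) = 2 * (m * m) := by
        rw [hm]; ring
      have h2 : 1 ≤ m * m := Nat.mul_pos (by omega) (by omega)
      omega) (by
      rw [← hq, ← hm]
      have h1 : 512 * (2 * q + 1 + 1) * (2 * q + 1) * e =
          2048 * (q * q * e) + 3072 * (q * e) + 1024 * e := by ring
      omega) Bs (fun b hb => hb) (C.m * (C.m + Fintype.card (Clause n k) + 1))
    (fun x => decide (Has R x)) (Nat.mul_pos hm1 (by omega)) hprog
    (fun x => decide_eq_true_iff)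
  exact hfin

end Pool.Agent.J4H64.MC
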