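import Pool.Agent.J4H64.MC.Def

set_option autoImplicit false

/-! The `k`-CNF of a set of points. -/

namespace Pool.Agent.J4H64.MC

open Finset Filter Pool.Agent.H560R2 Pool.Agent.H520R2

section Enc

variable {k μ m t K n : ℕ}

/-- the variables -/
abbrev V (k μ m t K : ℕ) : Type :=
  Fin K ⊕ (((Fin m × Fin k × Fin μ) × Fin (t + 1)) ⊕
    ((Fin m × Fin k × (Fin μ → Bool)) × Fin (μ + 1)))

noncomputable instance instDecV : DecidableEq (V k μ m t K) := Classical.decEq _

/-- seed bit -/
def vs (i : Fin K) : V k μ m t K := Sum.inl i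

/-- parity chain -/
def vc (r : Fin m × Fin k × Fin μ) (j : Fin (t + 1)) : V k μ m t K := Sum.inr (Sum.inl (r, j))

/-- comparison chain -/
def ve (q : Fin m × Fin k × (Fin μ → Bool)) (j : Fin (μ + 1)) : V k μ m t K :=
  Sum.inr (Sum.inr (q, j))

/-- the clauses which are always present -/
inductive Base (R : Fin m × Fin k × Fin μ → Fin t → Fin K) :
    Finset (V k μ m t K × Bool) → Prop
  | c0 (r : Fin m × Fin k × Fin μ) : Base R {((vc r 0 : V k μ m t K), false)}
  | cs (r : Fin m × Fin k × Fin μ) (j : Fin t) (a b : Bool) :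
      Base R {((vc r j.castSucc : V k μ m t K), !a), ((vs (R r j) : V k μ m t K), !b),
        ((vc r j.succ : V k μ m t K), xor a b)}
  | e0 (q : Fin m × Fin k × (Fin μ → Bool)) : Base R {((ve q 0 : V k μ m t K), true)}
  | es (i : Fin m) (h : Fin k) (u : Fin μ → Bool) (j : Fin μ) :
      Base R {((ve (i, h, u) j.castSucc : V k μ m t K), false),
        ((vc (i, h, j) (Fin.last t) : V k μ m t K), !(u j)),
        ((ve (i, h, u) j.succ : V k μ m t K), true)}

/-- the clause of a point -/
noncomputable def gc (p : Pnt k μ m) : Finset (V k μ m t K × Bool) :=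
  univ.image (fun h => ((ve (p.1, h, p.2 h) (Fin.last μ) : V k μ m t K), false))

theorem gc_inj (hk : 1 ≤ k) {p q : Pnt k μ m} (h : gc (t := t) (K := K) p = gc q) : p = q := by
  have key : ∀ h0 : Fin k, p.1 = q.1 ∧ p.2 h0 = q.2 h0 := by
    intro h0
    have h1 : ((ve (p.1, h0, p.2 h0) (Fin.last μ) : V k μ m t K), false) ∈
        gc (t := t) (K := K) p := mem_image_of_mem _ (mem_univ h0)
    rw [h] at h1
    obtain ⟨h2, -, h3⟩ := mem_image.mp h1
    simp only [ve, Prod.mk.injEq, Sum.inr.injEq, and_true] at h3
    obtain ⟨h4, rfl, h5⟩ := h3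
    exact ⟨h4.symm, h5.symm⟩
  refine Prod.ext (key ⟨0, hk⟩).1 (funext fun h0 => (key h0).2)

theorem card_gc (p : Pnt k μ m) : (gc (t := t) (K := K) p).card ≤ k := by
  refine card_image_le.trans ?_
  simp

theorem card_base (hk : 3 ≤ k) {R : Fin m × Fin k × Fin μ → Fin t → Fin K}
    {c : Finset (V k μ m t K × Bool)} (h : Base R c) : c.card ≤ k := by
  refine le_trans ?_ hk
  cases h with
  | c0 r => simp
  | cs r j a b => exact card_le_three
  | e0 q => simp
  | es i h u j => exact card_le_three

/-- satisfying assignments on the variables -/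
def SatV (R : Fin m × Fin k × Fin μ → Fin t → Fin K) (x : Set (Pnt k μ m))
    (A : V k μ m t K → Bool) : Prop :=
  (∀ c, Base R c → ∃ l ∈ c, A l.1 = l.2) ∧ ∀ p ∉ x, ∃ l ∈ gc p, A l.1 = l.2

theorem has_of_sat {R : Fin m × Fin k × Fin μ → Fin t → Fin K} {x : Set (Pnt k μ m)}
    {A : V k μ m t K → Bool} (hA : SatV R x A) : Has R x := by
  obtain ⟨h1, h2⟩ := hA
  refine ⟨fun i => A (vs i), fun i => ?_⟩
  set w : Fin K → Bool := fun i => A (vs i) with hw
  -- the parity chains
  have hc : ∀ (r : Fin m × Fin k × Fin μ) (j : ℕ) (hj : j < t + 1),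
      A (vc r ⟨j, hj⟩) = par R w r j := by
    intro r j
    induction j with
    | zero =>
      intro hj
      obtain ⟨l, hl, hl2⟩ := h1 _ (Base.c0 r)
      rw [mem_singleton] at hl
      subst hl
      exact hl2
    | succ j ih =>
      intro hj
      have hjt : j < t := by omega
      have h3 := ih (by omega)
      obtain ⟨l, hl, hl2⟩ := h1 _ (Base.cs r ⟨j, hjt⟩ (par R w r j) (w (R r ⟨j, hjt⟩)))
      simp only [mem_insert, mem_singleton] at hl
      rcases hl with rfl | rfl | rfl
      · exfalso
        change A (vc r ⟨j, _⟩) = _ at hl2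
        rw [h3] at hl2
        simp at hl2
      · exfalso
        change w (R r ⟨j, hjt⟩) = _ at hl2
        simp at hl2
      · rw [par, dif_pos hjt]
        exact hl2
  -- the comparison chains
  have he : ∀ (h : Fin k) (u : Fin μ → Bool) (j : ℕ) (hj : j < μ + 1),
      (∀ b : Fin μ, b.val < j → bit R w (i, h, b) = u b) → A (ve (i, h, u) ⟨j, hj⟩) = true := by
    intro h u j
    induction j with
    | zero =>
      intro hj _
      obtain ⟨l, hl, hl2⟩ := h1 _ (Base.e0 (i, h, u))
      rw [mem_singleton] at hl
      subst hl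
      exact hl2
    | succ j ih =>
      intro hj hb
      have hjt : j < μ := by omega
      have h3 := ih (by omega) (fun b hb' => hb b (by omega))
      obtain ⟨l, hl, hl2⟩ := h1 _ (Base.es i h u ⟨j, hjt⟩)
      simp only [mem_insert, mem_singleton] at hl
      rcases hl with rfl | rfl | rfl
      · exfalso
        change A (ve (i, h, u) ⟨j, _⟩) = false at hl2
        rw [h3] at hl2
        simp at hl2
      · exfalso
        have h4 : A (vc (i, h, ⟨j, hjt⟩) (Fin.last t)) = bit R w (i, h, ⟨j, hjt⟩) :=
          hc _ t (by omega)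
        have h5 := hb ⟨j, hjt⟩ (by simp)
        change A (vc (i, h, ⟨j, hjt⟩) (Fin.last t)) = !(u ⟨j, hjt⟩) at hl2
        rw [h4, h5] at hl2
        simp at hl2
      · exact hl2
  by_contra hx
  obtain ⟨l, hl, hl2⟩ := h2 _ hx
  obtain ⟨h, -, rfl⟩ := mem_image.mp hl
  have h3 := he h (value R w i h) μ (by omega) (fun b _ => rfl)
  change A (ve (i, h, value R w i h) (Fin.last μ)) = false at hl2
  have h4 : A (ve (i, h, value R w i h) (Fin.last μ)) = true := h3
  rw [h4] at hl2
  simp at hl2

/-- the intended assignment -/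
def asg (R : Fin m × Fin k × Fin μ → Fin t → Fin K) (w : Fin K → Bool) : V k μ m t K → Bool
  | Sum.inl i => w i
  | Sum.inr (Sum.inl (r, j)) => par R w r j.val
  | Sum.inr (Sum.inr ((i, h, u), j)) =>
      decide (∀ b : Fin μ, b.val < j.val → bit R w (i, h, b) = u b)

theorem sat_of_has {R : Fin m × Fin k × Fin μ → Fin t → Fin K} {x : Set (Pnt k μ m)}
    (h : Has R x) : ∃ A, SatV R x A := by
  obtain ⟨w, hw⟩ := h
  refine ⟨asg R w, ?_, ?_⟩
  · intro c hc
    cases hc with
    | c0 r => exact ⟨_, mem_singleton_self _, rfl⟩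
    | cs r j a b =>
      by_cases ha : par R w r j.val = a
      · by_cases hb : w (R r j) = b
        · refine ⟨(vc r j.succ, xor a b), by simp, ?_⟩
          show par R w r (j.val + 1) = xor a b
          rw [par, dif_pos j.isLt, ha]
          show xor a (w (R r j)) = _
          rw [hb]
        · refine ⟨(vs (R r j), !b), by simp, ?_⟩
          show w (R r j) = !b
          revert hb
          cases w (R r j) <;> cases b <;> simp
      · refine ⟨(vc r j.castSucc, !a), by simp, ?_⟩
        show par R w r j.val = !a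
        revert ha
        cases par R w r j.val <;> cases a <;> simp
    | e0 q =>
      refine ⟨_, mem_singleton_self _, ?_⟩
      obtain ⟨i, h, u⟩ := q
      show decide _ = true
      simp
    | es i h u j =>
      by_cases h1 : ∀ b : Fin μ, b.val < j.val → bit R w (i, h, b) = u b
      · by_cases h2 : bit R w (i, h, j) = u j
        · refine ⟨(ve (i, h, u) j.succ, true), by simp, ?_⟩
          show decide (∀ b : Fin μ, b.val < j.val + 1 → bit R w (i, h, b) = u b) = true
          rw [decide_eq_true_iff]
          intro b hb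
          by_cases hbj : b = j
          · rw [hbj]; exact h2
          · apply h1
            have : b.val ≠ j.val := fun hh => hbj (Fin.ext hh)
            omega
        · refine ⟨(vc (i, h, j) (Fin.last t), !(u j)), by simp, ?_⟩
          show bit R w (i, h, j) = !(u j)
          revert h2
          cases bit R w (i, h, j) <;> cases u j <;> simp
      · refine ⟨(ve (i, h, u) j.castSucc, false), by simp, ?_⟩
        show decide (∀ b : Fin μ, b.val < j.val → bit R w (i, h, b) = u b) = false
        rw [decide_eq_false_iff_not]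
        exact h1
  · intro p hp
    have hne : p.2 ≠ value R w p.1 := by
      intro hh
      apply hp
      have := hw p.1
      rw [← hh] at this
      exact this
    obtain ⟨h, hh⟩ := Function.ne_iff.mp hne
    obtain ⟨b, hb⟩ := Function.ne_iff.mp hh
    refine ⟨(ve (p.1, h, p.2 h) (Fin.last μ), false), mem_image_of_mem _ (mem_univ h), ?_⟩
    show decide (∀ b : Fin μ, b.val < μ → bit R w (p.1, h, b) = p.2 h b) = false
    rw [decide_eq_false_iff_not]
    intro hall
    exact hb (hall b b.isLt).symm

/-- the literals of a clause, renamed -/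
def mp (φ : V k μ m t K ↪ Fin n) (c : Finset (V k μ m t K × Bool)) : Finset (Fin n × Bool) :=
  c.map (φ.prodMap (Function.Embedding.refl Bool))

theorem card_V : Fintype.card (V k μ m t K) =
    K + m * (k * μ) * (t + 1) + m * (k * 2 ^ μ) * (μ + 1) := by
  simp only [Fintype.card_sum, Fintype.card_prod, Fintype.card_fin, Fintype.card_fun,
    Fintype.card_bool]
  ring

open Classical in
/-- the indicator vector -/
noncomputable def zz (R : Fin m × Fin k × Fin μ → Fin t → Fin K) (φ : V k μ m t K ↪ Fin n)
    (x : Set (Pnt k μ m)) (c : Clause n k) : Bool :=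
  decide ((∃ c0, Base R c0 ∧ c.1 = mp φ c0) ∨ ∃ p, p ∉ x ∧ c.1 = mp φ (gc p))

theorem t_ENC : S_ENC := by
  classical
  intro k μ m t K n R hk hn
  have hcard : Fintype.card (V k μ m t K) ≤ Fintype.card (Fin n) := by
    rw [card_V, Fintype.card_fin]; exact hn
  obtain ⟨φ⟩ := Function.Embedding.nonempty_of_card_le hcard
  have hmpinj : ∀ c c', mp φ c = mp φ c' → c = c' := fun c c' h => Finset.map_injective _ h
  refine ⟨zz R φ, ?_, ?_⟩
  · intro c
    by_cases hb : ∃ c0, Base R c0 ∧ c.1 = mp φ c0
    · refine ⟨∅, by simp, ?_⟩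
      intro x y _ hx
      exfalso
      simp only [zz, Bool.not_eq_true', decide_eq_false_iff_not, not_or] at hx
      exact hx.1 hb
    · by_cases hp : ∃ p, c.1 = mp φ (gc p)
      · obtain ⟨p, hp⟩ := hp
        refine ⟨{p}, by simp, ?_⟩
        intro x y hxy hx
        simp only [zz, Bool.not_eq_true', decide_eq_false_iff_not, not_or] at hx ⊢
        refine ⟨hb, ?_⟩
        rintro ⟨q, hq, hcq⟩
        have hpq : p = q := gc_inj (t := t) (K := K) (by omega) (hmpinj _ _ (hp.symm.trans hcq))
        subst hpq
        apply hq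
        apply hxy p (mem_singleton_self p)
        by_contra hpx
        exact hx.2 ⟨p, hpx, hp⟩
      · refine ⟨∅, by simp, ?_⟩
        intro x y _ hx
        simp only [zz, Bool.not_eq_true', decide_eq_false_iff_not, not_or] at hx ⊢
        refine ⟨hb, ?_⟩
        rintro ⟨q, -, hcq⟩
        exact hp ⟨q, hcq⟩
  · intro x
    have key : Sat (zz R φ x) ↔ ∃ A, SatV R x A := by
      constructor
      · rintro ⟨a, ha⟩
        have hget : ∀ c0 : Finset (V k μ m t K × Bool), (∃ l ∈ mp φ c0, a l.1 = l.2) →
            ∃ l ∈ c0, a (φ l.1) = l.2 := by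
          rintro c0 ⟨l, hl, hl2⟩
          obtain ⟨l', hl', rfl⟩ := Finset.mem_map.mp hl
          exact ⟨l', hl', hl2⟩
        refine ⟨fun v => a (φ v), ?_, ?_⟩
        · intro c0 hc0
          apply hget
          have hc : (mp φ c0).card ≤ k := by
            rw [mp, card_map]; exact card_base hk hc0
          refine ha ⟨mp φ c0, hc⟩ ?_
          simp only [zz, decide_eq_true_iff]
          exact Or.inl ⟨c0, hc0, rfl⟩
        · intro p hp
          apply hget
          have hc : (mp φ (gc p)).card ≤ k := by
            rw [mp, card_map]; exact card_gc p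
          refine ha ⟨mp φ (gc p), hc⟩ ?_
          simp only [zz, decide_eq_true_iff]
          exact Or.inr ⟨p, hp, rfl⟩
      · rintro ⟨A, hA1, hA2⟩
        refine ⟨Function.extend φ A (fun _ => false), ?_⟩
        have hput : ∀ c0 : Finset (V k μ m t K × Bool), (∃ l ∈ c0, A l.1 = l.2) →
            ∃ l ∈ mp φ c0, Function.extend φ A (fun _ => false) l.1 = l.2 := by
          rintro c0 ⟨l, hl, hl2⟩
          refine ⟨(φ l.1, l.2), ?_, ?_⟩
          · rw [mp, Finset.mem_map]
            exact ⟨l, hl, rfl⟩
          · rw [φ.injective.extend_apply]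
            exact hl2
        intro c hc
        simp only [zz, decide_eq_true_iff] at hc
        rcases hc with ⟨c0, hc0, hc1⟩ | ⟨p, hp, hc1⟩
        · rw [hc1]; exact hput _ (hA1 _ hc0)
        · rw [hc1]; exact hput _ (hA2 _ hp)
    rw [key]
    exact ⟨fun ⟨A, hA⟩ => has_of_sat hA, fun h => sat_of_has h⟩

end Enc

end Pool.Agent.J4H64.MC
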