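import Pool.Agent.J4H55.MC.Few
import Pool.Agent.J4H55.MC.Rows
import Pool.Agent.J4H42.MC.Ind
import Pool.Agent.J4H52.MC.Low
import Pool.Agent.J4H98.MC.Bin
import Pool.Agent.J4H46.MC.Pfin
import Pool.Agent.J4H64.MC.Asm
import Pool.Agent.J4H64.MC.Enc

set_option autoImplicit false

/-! Monotone circuits of any depth for `k`-CNF-UNSAT: the lower bound. -/

namespace Pool.Agent.J4H64.MC

theorem monotone_lower : S_FIN :=
  Pool.Agent.J4H46.MC.t_PFIN (t_ASM (Pool.Agent.J4H55.MC.t_ROWS Pool.Agent.J4H55.MC.t_FEW)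
    (Pool.Agent.J4H52.MC.t_LOW Pool.Agent.J4H42.MC.t_IND) Pool.Agent.J4H98.MC.t_BIN t_ENC)

end Pool.Agent.J4H64.MC
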